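import Pool.Agent.V5helper32.CM.Stm2

/-!
# Project CM, job CI: invariants are central
-/

namespace Pool.Agent.V5helper45.CM

open Pool.Agent.V5helper32.CM MvPolynomial
open scoped TensorProduct

theorem t_CI (h1 : S_DK2) (h2 : S_POLY) (h3 : S_SPAN) (h4 : S_INJ) : S_CI := by
  intro n W _ _ ρ hρ c hc H _ _ R hU i hi f hf
  obtain ⟨DD⟩ := h1 n W ρ c hc
  obtain ⟨F, Fx, Fy, Fu⟩ := hU.1 (Module.End ℂ (Un n)) DD.R
  obtain ⟨j, hj⟩ := h2 n H R.y R.yy
  obtain ⟨ui, uj, hs⟩ := h3 n W ρ c H R i j hi hj hU.2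
  have hinj := h4 n W ρ hρ c DD H R F Fx Fy Fu i j hi hj
  have hF : ∀ h : H, F h = 0 → h = 0 := by
    intro h h0
    obtain ⟨q, rfl⟩ := hs h
    have : q = 0 := hinj (by
      simp only [] at h0 ⊢
      rw [h0]
      simp)
    rw [this]
    simp
  -- the operator of `i f`
  let φ : MvPolynomial (Fin n) ℂ →ₐ[ℂ] Un n :=
    (Algebra.ofId (Kf n) (Un n)).restrictScalars ℂ |>.comp
      (IsScalarTower.toAlgHom ℂ (MvPolynomial (Fin n) ℂ) (Kf n))
  have hφ : ∀ f, φ f = C (algebraMap (MvPolynomial (Fin n) ℂ) (Kf n) f) := fun f => rfl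
  have hop : F.comp i = (Algebra.lmul ℂ (Un n)).comp φ := by
    apply MvPolynomial.algHom_ext
    intro a
    rw [AlgHom.comp_apply, AlgHom.comp_apply, hi, Fx, DD.Rx, hφ]
    rfl
  have hopf : ∀ f v, F (i f) v = C (algebraMap (MvPolynomial (Fin n) ℂ) (Kf n) f) * v := by
    intro f v
    have := congrArg (fun G : MvPolynomial (Fin n) ℂ →ₐ[ℂ] Module.End ℂ (Un n) => G f v) hop
    simpa [hφ] using this
  intro h
  have hmem : h ∈ Algebra.adjoin ℂ (Set.range R.x ∪ Set.range R.y ∪ Set.range R.u) := by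
    rw [hU.2]; trivial
  induction hmem using Algebra.adjoin_induction with
  | mem z hz =>
    rcases hz with (⟨a, rfl⟩ | ⟨a, rfl⟩) | ⟨w, rfl⟩
    · rw [← hi a, ← map_mul, ← map_mul, mul_comm]
    · rw [← sub_eq_zero]
      apply hF
      rw [map_sub, map_mul, map_mul, Fy, DD.Ry, sub_eq_zero]
      apply LinearMap.ext
      intro v
      have he : ∀ w, DD.e w (C (algebraMap (MvPolynomial (Fin n) ℂ) (Kf n) f)) =
          C (algebraMap (MvPolynomial (Fin n) ℂ) (Kf n) f) := by
        intro w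
        rw [DD.ef, hf w]
      rw [Module.End.mul_apply, Module.End.mul_apply, hopf, hopf]
      simp only [LinearMap.add_apply, LinearMap.mulLeft_apply, LinearMap.sum_apply,
        LinearMap.comp_apply, AlgEquiv.toLinearMap_apply, map_mul, he, mul_add, Finset.mul_sum]
      congr 1
      · ring
      · apply Finset.sum_congr rfl
        intro w _
        ring
    · rw [ui w f, hf w]
  | algebraMap r => exact (Algebra.commutes r (i f)).symm
  | add x y _ _ hx hy => rw [mul_add, add_mul, hx, hy]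
  | mul x y _ _ hx hy => rw [← mul_assoc, hx, mul_assoc, hy, mul_assoc]

end Pool.Agent.V5helper45.CM
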