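import Pool.Agent.V5helper32.CM.Stm2

/-!
# Project CM, job POLY
-/

namespace Pool.Agent.V5helper45.CM

open Pool.Agent.V5helper32.CM MvPolynomial

theorem t_POLY : S_POLY := by
  intro n B _ _ x hx
  have hc : ∀ a ∈ Set.range x, ∀ b ∈ Set.range x, a * b = b * a := by
    rintro _ ⟨a, rfl⟩ _ ⟨b, rfl⟩
    exact hx a b
  letI : CommRing (Algebra.adjoin ℂ (Set.range x)) := Algebra.adjoinCommRingOfComm ℂ hc
  refine ⟨(Algebra.adjoin ℂ (Set.range x)).val.comp
    (aeval fun a => (⟨x a, Algebra.subset_adjoin ⟨a, rfl⟩⟩ : Algebra.adjoin ℂ (Set.range x))),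
    fun a => ?_⟩
  simp

end Pool.Agent.V5helper45.CM
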