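import Pool.Agent.V5helper32.CM.Stm2

/-!
# Project CM, job TRI: the triangular decomposition
-/

namespace Pool.Agent.V5helper45.CM

open Pool.Agent.V5helper32.CM MvPolynomial
open scoped TensorProduct

/-- A matrix of rank one is a column times a row. -/
theorem rank_one_form {n : ℕ} (M : Matrix (Fin n) (Fin n) ℂ) (h : M.rank = 1) :
    ∃ β γ : Fin n → ℂ, ∀ i j, M i j = β i * γ j := by
  rw [Matrix.rank_eq_finrank_span_cols, finrank_eq_one_iff'] at h
  obtain ⟨v, _, hv⟩ := h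
  choose γ hγ using fun j => hv ⟨M.col j, Submodule.subset_span ⟨j, rfl⟩⟩
  refine ⟨v.1, γ, fun i j => ?_⟩
  have := congrArg (fun u : Submodule.span ℂ (Set.range M.col) => u.1 i) (hγ j)
  simp only [Submodule.coe_smul, Pi.smul_apply, smul_eq_mul] at this
  rw [mul_comm, this]
  rfl

/-- For a reflection `g`: `g⁻¹ - 1 = - det(g)⁻¹ (g - 1)`. -/
theorem refl_inv {n : ℕ} (g : Gl n) (h : (g.val - 1).rank = 1) :
    (g⁻¹).val - 1 = (-(g.val.det)⁻¹) • (g.val - 1) := by
  obtain ⟨β, γ, hM⟩ := rank_one_form _ h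
  set M := g.val - 1 with hMdef
  have hg : g.val = 1 + M := by rw [hMdef]; abel
  have hMM : M = Matrix.replicateCol (Fin 1) β * Matrix.replicateRow (Fin 1) γ := by
    ext i j
    rw [hM]
    simp [Matrix.mul_apply]
  have hdet : g.val.det = 1 + γ ⬝ᵥ β := by
    rw [hg, hMM, Matrix.det_one_add_mul_comm, Matrix.det_fin_one, Matrix.add_apply,
      Matrix.one_apply_eq, Matrix.mul_apply]
    rfl
  have hM2 : M * M = (γ ⬝ᵥ β) • M := by
    ext i j
    rw [Matrix.mul_apply, Matrix.smul_apply, smul_eq_mul, dotProduct, Finset.sum_mul]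
    apply Finset.sum_congr rfl
    intro l _
    rw [hM, hM, hM]
    ring
  have hgM : g.val * M = g.val.det • M := by
    rw [hdet]
    conv_lhs => rw [hg]
    rw [Matrix.add_mul, Matrix.one_mul, hM2, add_smul, one_smul]
  have hd0 : g.val.det ≠ 0 := by
    have : IsUnit g.val.det := (Matrix.isUnit_iff_isUnit_det _).1 g.isUnit
    exact this.ne_zero
  have h1 : M = g.val.det • ((g⁻¹).val * M) := by
    have := congrArg (fun X => (g⁻¹).val * X) hgM
    simp only [Matrix.mul_smul] at this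
    rw [← this, ← Matrix.mul_assoc, ← Units.val_mul, inv_mul_cancel, Units.val_one, Matrix.one_mul]
  have h2 : (g⁻¹).val * M = 1 - (g⁻¹).val := by
    rw [hMdef, Matrix.mul_sub, ← Units.val_mul, inv_mul_cancel, Units.val_one, Matrix.mul_one]
  rw [h2] at h1
  rw [h1, smul_smul, neg_mul, inv_mul_cancel₀ hd0]
  simp

/-- Exchanging `x` and `y`. -/
noncomputable def flip {n : ℕ} {W : Type} [Group W] [Fintype W] {ρ₁ ρ₂ : W →* Gl n} {c₁ c₂ : W → ℂ}
    (hρ : ∀ w a b, (ρ₂ w).val a b = ((ρ₁ w)⁻¹).val b a)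
    (hρ' : ∀ w a b, ((ρ₂ w)⁻¹).val a b = (ρ₁ w).val b a)
    (hc : ∀ w a b, c₂ w * ((ρ₁ w).val a b - (1 : Matrix (Fin n) (Fin n) ℂ) a b) =
      -(c₁ w * (((ρ₁ w)⁻¹).val a b - (1 : Matrix (Fin n) (Fin n) ℂ) a b)))
    {B : Type} [Ring B] [Algebra ℂ B] (R : ChRel ρ₁ c₁ B) : ChRel ρ₂ c₂ B where
  x := R.y
  y := R.x
  u := R.u
  xx := R.yy
  yy := R.xx
  ux w a := by
    rw [R.uy]
    simp only [hρ']
  uy w a := by
    rw [R.ux]
    simp only [hρ]
  yx a b := by
    have h := R.yx b a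
    rw [← neg_sub, h, ← Finset.sum_neg_distrib]
    apply Finset.sum_congr rfl
    intro w _
    rw [← neg_smul]
    congr 1
    rw [← hc, hρ']
    congr 2
    rw [Matrix.one_apply, Matrix.one_apply]
    simp only [eq_comm]

theorem dualG_val {n : ℕ} (g : Gl n) (a b : Fin n) : (dualG g).val a b = (g⁻¹).val b a := rfl

theorem dualG_inv_val {n : ℕ} (g : Gl n) (a b : Fin n) :
    ((dualG g)⁻¹).val a b = g.val b a := by
  rw [← map_inv, dualG_val, inv_inv]

theorem dualG_inj {n : ℕ} : Function.Injective (dualG (n := n)) := by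
  intro g h e
  apply Units.ext
  ext a b
  rw [← dualG_inv_val g b a, ← dualG_inv_val h b a, e]

theorem t_TRI (h1 : S_DK2) (h2 : S_POLY) (h3 : S_SPAN) (h4 : S_INJ) (h5 : S_CI) : S_TRI := by
  intro n W _ _ ρ hρ c hc H _ _ R hU
  obtain ⟨DD⟩ := h1 n W ρ c hc
  obtain ⟨F, Fx, Fy, Fu⟩ := hU.1 (Module.End ℂ (Un n)) DD.R
  obtain ⟨i, hi⟩ := h2 n H R.x R.xx
  obtain ⟨j, hj⟩ := h2 n H R.y R.yy
  obtain ⟨ui, uj, hs⟩ := h3 n W ρ c H R i j hi hj hU.2
  have hinj := h4 n W ρ hρ c DD H R F Fx Fy Fu i j hi hj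
  -- the dual data
  set c' : W → ℂ := fun w => c w * ((ρ w).val.det)⁻¹ with hc'
  have hdc : ∀ w w', (ρ (w * w' * w⁻¹)).val.det = (ρ w').val.det := by
    intro w w'
    rw [map_mul, map_mul, map_inv, Units.val_mul, Units.val_mul, Matrix.det_mul, Matrix.det_mul]
    have : (ρ w).val.det * ((ρ w)⁻¹).val.det = 1 := by
      rw [← Matrix.det_mul, ← Units.val_mul, mul_inv_cancel, Units.val_one, Matrix.det_one]
    linear_combination ((ρ w').val.det) * this
  have hd0 : ∀ w, (ρ w).val.det ≠ 0 := fun w =>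
    ((Matrix.isUnit_iff_isUnit_det _).1 (ρ w).isUnit).ne_zero
  have key : ∀ w a b, c' w * ((ρ w).val a b - (1 : Matrix (Fin n) (Fin n) ℂ) a b) =
      -(c w * (((ρ w)⁻¹).val a b - (1 : Matrix (Fin n) (Fin n) ℂ) a b)) := by
    intro w a b
    by_cases h0 : c w = 0
    · simp [hc', h0]
    · have h := congrFun (congrFun (refl_inv (ρ w) (hc.2 w h0)) a) b
      rw [Matrix.sub_apply, Matrix.smul_apply, Matrix.sub_apply, smul_eq_mul] at h
      rw [h, hc']
      ring
  have key' : ∀ w a b, c w * ((dualG.comp ρ w).val a b - (1 : Matrix (Fin n) (Fin n) ℂ) a b) =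
      -(c' w * (((dualG.comp ρ w)⁻¹).val a b - (1 : Matrix (Fin n) (Fin n) ℂ) a b)) := by
    intro w a b
    have h := key w b a
    rw [MonoidHom.comp_apply, dualG_inv_val, dualG_val]
    have h1 : (1 : Matrix (Fin n) (Fin n) ℂ) a b = (1 : Matrix (Fin n) (Fin n) ℂ) b a := by
      rw [Matrix.one_apply, Matrix.one_apply]
      simp only [eq_comm]
    rw [h1, h]
    ring
  have hcl : ClsRefl (dualG.comp ρ) c' := by
    constructor
    · intro w w'
      rw [hc']
      simp only [hdc, hc.1]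
    · intro w hw
      have h0 : c w ≠ 0 := by
        intro h0
        exact hw (by simp [hc', h0])
      have hr := hc.2 w h0
      have e : (dualG.comp ρ w).val - 1 =
          ((-((ρ w).val.det)⁻¹) • ((ρ w).val - 1)).transpose := by
        rw [← refl_inv (ρ w) hr, Matrix.transpose_sub, Matrix.transpose_one]
        rfl
      rw [e, Matrix.rank_transpose, Matrix.rank_smul_of_mem_nonZeroDivisors _ _, hr]
      exact mem_nonZeroDivisors_of_ne_zero (neg_ne_zero.2 (inv_ne_zero (hd0 w)))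
  let R' : ChRel (dualG.comp ρ) c' H :=
    flip (fun w a b => rfl) (fun w a b => dualG_inv_val _ _ _) key R
  have hU' : Univ R' := by
    constructor
    · intro B _ _ R''
      obtain ⟨F', F'x, F'y, F'u⟩ := hU.1 B
        (flip (ρ₂ := ρ) (c₂ := c) (fun w a b => by
          rw [MonoidHom.comp_apply, dualG_inv_val]) (fun w a b => by
          rw [MonoidHom.comp_apply, dualG_val]) key' R'')
      exact ⟨F', F'y, F'x, F'u⟩
    · have := hU.2
      rw [← this]
      congr 1
      change Set.range R.y ∪ Set.range R.x ∪ Set.range R.u = _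
      rw [Set.union_comm (Set.range R.y)]
  refine ⟨⟨i, j, R.u, ui, uj, ?_, ⟨?_, hs⟩, h5 n W ρ hρ c hc H R hU i hi,
    h5 n W (dualG.comp ρ) (dualG_inj.comp hρ) c' hcl H R' hU' j hj⟩, hi, hj, rfl⟩
  · intro a b
    rw [hi, hj]
    exact ⟨_, R.yx a b⟩
  · intro q q' e
    apply hinj
    simp only [] at e ⊢
    rw [e]

end Pool.Agent.V5helper45.CM
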